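import Pool.Agent.Q96.JM.Main

set_option autoImplicit false

open scoped Matrix Matrix.Norms.L2Operator ComplexConjugate
open Matrix

namespace Pool.Agent.Results.MP_a09116_an.JetMap

open Q96.JM

/-- **Disproof of Q1, in both versions.** For every `δ > 0` there are seven Hermitian, linearly
independent `9 × 9` matrices, `b` and a parameter `a` with `‖a‖ < δ`, lying well inside the ball of
parameters for which the solution `X` exists and is unique, such that the quadric is strongly
`𝔇(a)`-nondegenerate, while for **every** `V` the 1-jet map has a vanishing directional derivative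
at `(a, V)` and is not a local diffeomorphism there. -/
theorem result : ∀ δ : ℝ, 0 < δ →
    ∃ (A : I7 → Matrix I9 I9 ℂ) (b : I7 → ℝ) (a : I7 → ℂ),
      (∀ j, (A j).IsHermitian) ∧ LinearIndependent ℝ A ∧ IsUnit (∑ j, (b j : ℂ) • A j) ∧
      ‖a‖ < δ ∧
      (∀ a' : I7 → ℂ, ‖a'‖ ≤ 2 * ‖a‖ → IsUnit (Am A b a') ∧ ∃! X, IsSol A b a' X) ∧
      (∃ V, (Dm A b a V).PosDef) ∧
      ∀ V, ¬ IsLocDiff (jmap A b) (a, V) ∧
        ∃ w : (I7 → ℂ) × (I9 → ℂ), w ≠ 0 ∧
          HasDerivAt (fun t : ℝ => jmap A b ((a, V) + t • w)) 0 0 :=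
  fun δ hδ => main δ hδ

end Pool.Agent.Results.MP_a09116_an.JetMap
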